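import Pool.Agent.helper24.CG.Spec

set_option autoImplicit false

namespace Pool.Agent.helper24.CG

open Finset

/-- The invariant. -/
structure IND_inv (N m b q : ℕ) (Ψ0 : ES N → ℝ) (R : List (ES N) → Finset (Fin N) → Set ℝ)
    (M B : ES N) (H : List (ES N)) (Ψ : ES N → ℝ) : Prop where
  hist : Hist N m H
  un : ∀ e, e ∈ M ↔ ∃ E ∈ H, e ∈ E
  disj : Disjoint M B
  nonneg : ∀ S, 0 ≤ Ψ S
  dom : ∀ S, Disjoint S B → Ψ0 S * gain b m S H ≤ Ψ S
  tot : ∀ X, X ⊆ edges N \ (M ∪ B) → X.card ≤ m →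
    ∑ S, Ψ S * (1 + (b : ℝ) * ((X ∩ S).card : ℝ) / (m : ℝ)) ≤
      2 * (1 + (b : ℝ)) + (H.length : ℝ) * ((N : ℝ) ^ 2)⁻¹
  cert : ∀ K : Finset (Fin N), K.card = q → Disjoint (ed K) B → ∀ H₂ H₁, H = H₂ ++ H₁ →
    ∃ r ∈ R H₁ K, r * gain b m (ed K) H₂ ≤ Ψ (ed K)

theorem IND_fac_nonneg {α : Type} [DecidableEq α] (b m : ℕ) (X S : Finset α) :
    0 ≤ (b : ℝ) * ((X ∩ S).card : ℝ) / (m : ℝ) := by positivity

theorem IND_gain_nonneg {α : Type} [DecidableEq α] (b m : ℕ) (S : Finset α)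
    (H : List (Finset α)) : 0 ≤ gain b m S H := by
  unfold gain
  apply List.prod_nonneg
  intro x hx
  obtain ⟨E, _, rfl⟩ := List.mem_map.1 hx
  positivity

theorem IND_gain_cons {α : Type} [DecidableEq α] (b m : ℕ) (S X : Finset α)
    (H : List (Finset α)) : gain b m S (X :: H) =
      (1 + (b : ℝ) * ((X ∩ S).card : ℝ) / (m : ℝ)) * gain b m S H := by
  simp [gain]

theorem IND_budget {N m b : ℕ} (h2 : HLN_stmt) (hN : 1 ≤ N) {H : List (ES N)}
    (hH : Hist N m H) :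
    2 * (1 + (b : ℝ)) + (H.length : ℝ) * ((N : ℝ) ^ 2)⁻¹ ≤ 2 * b + 3 := by
  have h := (h2 N m H hH).1
  have h' : (H.length : ℝ) ≤ (N : ℝ) ^ 2 := by exact_mod_cast h
  have hN' : (0 : ℝ) < (N : ℝ) ^ 2 := by positivity
  have : (H.length : ℝ) * ((N : ℝ) ^ 2)⁻¹ ≤ 1 := by
    rw [← div_eq_mul_inv, div_le_one hN']
    exact h'
  linarith

theorem IND_step (h1 : GRD_stmt) (h2 : HLN_stmt) {N m b q : ℕ} {Ψ0 : ES N → ℝ}
    {R : List (ES N) → Finset (Fin N) → Set ℝ} (hN : 1 ≤ N) (hm : 1 ≤ m)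
    (hb : ∀ (H : List (ES N)) (Bk : ES N) (Ψ : ES N → ℝ), Hist N m H → H ≠ [] → (∀ S, 0 ≤ Ψ S) →
      ∑ S, Ψ S ≤ 2 * b + 3 → (∀ S, Disjoint S Bk → Ψ0 S * gain b m S H ≤ Ψ S) →
      ∃ β : ES N → ℝ, (∀ S, 0 ≤ β S) ∧ ∑ S, β S ≤ ((N : ℝ) ^ 2)⁻¹ ∧
        ∀ K : Finset (Fin N), K.card = q → Disjoint (ed K) Bk → ∃ r ∈ R H K, r ≤ β (ed K))
    {M B : ES N} {H : List (ES N)} {Ψ : ES N → ℝ} (inv : IND_inv N m b q Ψ0 R M B H Ψ)
    {X : ES N} (hX : IsMove m (edges N \ (M ∪ B)) X) (hne : X.Nonempty) :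
    ∃ Y, IsMove b (edges N \ (M ∪ X ∪ B)) Y ∧
      ∃ Ψ', IND_inv N m b q Ψ0 R (M ∪ X) (B ∪ Y) (X :: H) Ψ' := by
  have hXsub := hX.1
  have hXcard : X.card ≤ m := by rw [hX.2]; exact min_le_left _ _
  have hXM : ∀ e ∈ X, e ∈ edges N ∧ e ∉ M ∧ e ∉ B := by
    intro e he
    have := hXsub he
    rw [mem_sdiff, mem_union, not_or] at this
    exact ⟨this.1, this.2.1, this.2.2⟩
  -- the new history
  have hist' : Hist N m (X :: H) := by
    refine ⟨?_, ?_⟩
    · rw [List.pairwise_cons]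
      refine ⟨?_, inv.hist.disj⟩
      intro E hE
      rw [Finset.disjoint_left]
      intro e heX heE
      exact (hXM e heX).2.1 ((inv.un e).2 ⟨E, hE, heE⟩)
    · intro E hE
      rcases List.mem_cons.1 hE with rfl | hE
      · exact ⟨fun e he => (hXM e he).1, hne, hXcard⟩
      · exact inv.hist.mem E hE
  set Ψ1 : ES N → ℝ := fun S => Ψ S * (1 + (b : ℝ) * ((X ∩ S).card : ℝ) / (m : ℝ)) with hΨ1
  have hΨ1nn : ∀ S, 0 ≤ Ψ1 S := fun S => mul_nonneg (inv.nonneg S)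
    (by have := IND_fac_nonneg b m X S; linarith)
  have htot := inv.tot X hXsub hXcard
  have hbud := IND_budget (b := b) h2 hN inv.hist
  obtain ⟨β, hβ0, hβs, hβK⟩ := hb (X :: H) B Ψ1 hist' (by simp) hΨ1nn (le_trans htot hbud) (by
    intro S hS
    have := inv.dom S hS
    rw [IND_gain_cons]
    have hf := IND_fac_nonneg b m X S
    calc Ψ0 S * ((1 + (b : ℝ) * ((X ∩ S).card : ℝ) / (m : ℝ)) * gain b m S H)
        = (Ψ0 S * gain b m S H) * (1 + (b : ℝ) * ((X ∩ S).card : ℝ) / (m : ℝ)) := by ring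
      _ ≤ Ψ S * (1 + (b : ℝ) * ((X ∩ S).card : ℝ) / (m : ℝ)) :=
        mul_le_mul_of_nonneg_right this (by linarith))
  set Ψ2 : ES N → ℝ := fun S => Ψ1 S + β S with hΨ2
  have hΨ2nn : ∀ S, 0 ≤ Ψ2 S := fun S => add_nonneg (hΨ1nn S) (hβ0 S)
  have hΨ2s : ∑ S, Ψ2 S ≤ 2 * (1 + (b : ℝ)) + ((X :: H).length : ℝ) * ((N : ℝ) ^ 2)⁻¹ := by
    rw [hΨ2]
    simp only [Finset.sum_add_distrib]
    rw [List.length_cons]
    push_cast
    have : ∑ S, Ψ1 S ≤ 2 * (1 + (b : ℝ)) + (H.length : ℝ) * ((N : ℝ) ^ 2)⁻¹ := htot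
    nlinarith [this, hβs]
  obtain ⟨Y, hY, hYX⟩ := h1 (Finset (Fin N)) m b (edges N \ (M ∪ X ∪ B)) Ψ2 hm hΨ2nn
  refine ⟨Y, hY, fun S => if Disjoint S Y then Ψ2 S else 0, ?_⟩
  refine ⟨hist', ?_, ?_, ?_, ?_, ?_, ?_⟩
  · intro e
    rw [mem_union, inv.un e]
    constructor
    · rintro (⟨E, hE, he⟩ | he)
      · exact ⟨E, List.mem_cons_of_mem _ hE, he⟩
      · exact ⟨X, List.mem_cons_self, he⟩
    · rintro ⟨E, hE, he⟩
      rcases List.mem_cons.1 hE with rfl | hE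
      · exact Or.inr he
      · exact Or.inl ⟨E, hE, he⟩
  · rw [Finset.disjoint_left]
    intro e he he'
    rw [mem_union] at he he'
    have hMB := Finset.disjoint_left.1 inv.disj
    rcases he' with he' | he'
    · rcases he with he | he
      · exact hMB he he'
      · exact (hXM e he).2.2 he'
    · have := hY.1 he'
      rw [mem_sdiff, mem_union, mem_union] at this
      exact this.2 (Or.inl he)
  · intro S
    show 0 ≤ (if Disjoint S Y then Ψ2 S else 0)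
    split_ifs
    · exact hΨ2nn S
    · exact le_rfl
  · intro S hS
    rw [disjoint_union_right] at hS
    show Ψ0 S * gain b m S (X :: H) ≤ (if Disjoint S Y then Ψ2 S else 0)
    rw [if_pos hS.2, IND_gain_cons]
    have hf := IND_fac_nonneg b m X S
    calc Ψ0 S * ((1 + (b : ℝ) * ((X ∩ S).card : ℝ) / (m : ℝ)) * gain b m S H)
        = (Ψ0 S * gain b m S H) * (1 + (b : ℝ) * ((X ∩ S).card : ℝ) / (m : ℝ)) := by ring
      _ ≤ Ψ S * (1 + (b : ℝ) * ((X ∩ S).card : ℝ) / (m : ℝ)) :=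
        mul_le_mul_of_nonneg_right (inv.dom S hS.1) (by linarith)
      _ ≤ Ψ2 S := by
        have := hβ0 S
        simp only [hΨ2, hΨ1]
        linarith
  · intro X' hX' hX'm
    have hsub : X' ⊆ (edges N \ (M ∪ X ∪ B)) \ Y := by
      intro e he
      have := hX' he
      simp only [mem_sdiff, mem_union, not_or] at this ⊢
      exact ⟨⟨this.1, ⟨this.2.1.1, this.2.1.2⟩, this.2.2.1⟩, this.2.2.2⟩
    refine le_trans (le_of_eq ?_) (le_trans (hYX X' hsub hX'm) hΨ2s)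
    apply Finset.sum_congr rfl
    intro S _
    split_ifs
    · rfl
    · rw [zero_mul]
  · intro K hK hKd H₂ H₁ hH
    rw [disjoint_union_right] at hKd
    show ∃ r ∈ R H₁ K, r * gain b m (ed K) H₂ ≤ (if Disjoint (ed K) Y then Ψ2 (ed K) else 0)
    rw [if_pos hKd.2]
    cases H₂ with
    | nil =>
      rw [List.nil_append] at hH
      subst hH
      obtain ⟨r, hr, hr'⟩ := hβK K hK hKd.1
      refine ⟨r, hr, ?_⟩
      have := hΨ1nn (ed K)
      simp only [gain, List.map_nil, List.prod_nil, mul_one, hΨ2]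
      linarith
    | cons E H₂ =>
      rw [List.cons_append] at hH
      have hE : X = E := (List.cons.inj hH).1
      have hHH : H = H₂ ++ H₁ := (List.cons.inj hH).2
      subst hE
      obtain ⟨r, hr, hr'⟩ := inv.cert K hK hKd.1 H₂ H₁ hHH
      refine ⟨r, hr, ?_⟩
      rw [IND_gain_cons]
      have hf := IND_fac_nonneg b m X (ed K)
      calc r * ((1 + (b : ℝ) * ((X ∩ ed K).card : ℝ) / (m : ℝ)) * gain b m (ed K) H₂)
          = (r * gain b m (ed K) H₂) * (1 + (b : ℝ) * ((X ∩ ed K).card : ℝ) / (m : ℝ)) := by ring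
        _ ≤ Ψ (ed K) * (1 + (b : ℝ) * ((X ∩ ed K).card : ℝ) / (m : ℝ)) :=
          mul_le_mul_of_nonneg_right hr' (by linarith)
        _ ≤ Ψ2 (ed K) := by
          have := hβ0 (ed K)
          simp only [hΨ2, hΨ1]
          linarith

theorem IND (h1 : GRD_stmt) (h2 : HLN_stmt) : IND_stmt := by
  intro N m b q Ψ0 R hN hm hΨ0 hΨ0s _ hinit hb hwin
  have key : ∀ M B : ES N, MakerWins N m b q M B → ∀ (H : List (ES N)) (Ψ : ES N → ℝ),
      IND_inv N m b q Ψ0 R M B H Ψ →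
      ∃ (H : List (ES N)) (K : Finset (Fin N)), Hist N m H ∧ K.card = q ∧
        (∀ e ∈ ed K, ∃ E ∈ H, e ∈ E) ∧
        ∀ H₂ H₁, H = H₂ ++ H₁ → ∃ r ∈ R H₁ K, r * gain b m (ed K) H₂ ≤ 2 * b + 3 := by
    intro M B hw
    induction hw with
    | clique M B K hK h =>
      intro H Ψ inv
      refine ⟨H, K, inv.hist, hK, fun e he => (inv.un e).1 (h he), ?_⟩
      intro H₂ H₁ hH
      have hd : Disjoint (ed K) B := Disjoint.mono_left h inv.disj
      obtain ⟨r, hr, hr'⟩ := inv.cert K hK hd H₂ H₁ hH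
      refine ⟨r, hr, ?_⟩
      have ht := inv.tot ∅ (Finset.empty_subset _) (by simp)
      have hsum : ∑ S, Ψ S ≤ 2 * b + 3 := by
        have hbud := IND_budget (b := b) h2 hN inv.hist
        simp only [Finset.empty_inter, Finset.card_empty, Nat.cast_zero, mul_zero, zero_div,
          add_zero, mul_one] at ht
        linarith
      have := Finset.single_le_sum (f := Ψ) (fun S _ => inv.nonneg S) (Finset.mem_univ (ed K))
      linarith
    | move M B X hX h ih =>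
      intro H Ψ inv
      rcases Finset.eq_empty_or_nonempty X with hX0 | hne
      · subst hX0
        have hfree : edges N \ (M ∪ B) = ∅ := by
          have := hX.2
          rw [Finset.card_empty] at this
          rcases Nat.min_eq_zero_iff.1 this.symm with h0 | h0
          · omega
          · exact Finset.card_eq_zero.1 h0
        have hY : IsMove b (edges N \ (M ∪ ∅ ∪ B)) (∅ : ES N) := by
          rw [Finset.union_empty, hfree]
          exact ⟨Finset.Subset.refl _, by simp⟩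
        refine ih ∅ hY H Ψ ?_
        rw [Finset.union_empty, Finset.union_empty]
        exact inv
      · obtain ⟨Y, hY, Ψ', inv'⟩ := IND_step h1 h2 hN hm hb inv hX hne
        exact ih Y hY _ Ψ' inv'
  refine key ∅ ∅ hwin [] Ψ0 ⟨⟨List.Pairwise.nil, by simp⟩, by simp, Finset.disjoint_empty_left _,
    hΨ0, ?_, ?_, ?_⟩
  · intro S _
    simp [gain]
  · intro X _ hX
    have hm' : (0 : ℝ) < m := by exact_mod_cast hm
    have : ∀ S : ES N, Ψ0 S * (1 + (b : ℝ) * ((X ∩ S).card : ℝ) / (m : ℝ)) ≤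
        Ψ0 S * (1 + (b : ℝ)) := by
      intro S
      apply mul_le_mul_of_nonneg_left _ (hΨ0 S)
      have h3 : ((X ∩ S).card : ℝ) ≤ m := by
        exact_mod_cast le_trans (Finset.card_le_card Finset.inter_subset_left) hX
      have h4 : (b : ℝ) * ((X ∩ S).card : ℝ) / (m : ℝ) ≤ b := by
        rw [div_le_iff₀ hm']
        exact mul_le_mul_of_nonneg_left h3 (Nat.cast_nonneg b)
      linarith
    calc ∑ S, Ψ0 S * (1 + (b : ℝ) * ((X ∩ S).card : ℝ) / (m : ℝ))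
        ≤ ∑ S, Ψ0 S * (1 + (b : ℝ)) := Finset.sum_le_sum fun S _ => this S
      _ = (∑ S, Ψ0 S) * (1 + (b : ℝ)) := by rw [Finset.sum_mul]
      _ ≤ 2 * (1 + (b : ℝ)) := mul_le_mul_of_nonneg_right hΨ0s (by positivity)
      _ ≤ _ := by simp
  · intro K hK _ H₂ H₁ hH
    obtain ⟨h5, h6⟩ := List.append_eq_nil_iff.1 hH.symm
    subst h5 h6
    obtain ⟨r, hr, hr'⟩ := hinit K hK
    exact ⟨r, hr, by simpa [gain] using hr'⟩

end Pool.Agent.helper24.CG
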