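import Pool.Agent.helper24.CG.Spec

/-!
# The biased clique game, form that is uniform in `b` (MP_ba8873_co)

THEOREM. There is an absolute constant `C` such that for all `b, m ≥ 1` and all `N ≥ N_0(b, m)`
`A(K_N; clique; m:b) ≤ (1 + C * m^(-1/9)) * max (2/b) (1/log (1+b)) * m * log N`.
-/

set_option autoImplicit false

namespace Pool.Agent.helper24.CG

open Finset

/-- FIN2, from HLN and MUL: as FIN (Pool/Agent/helper65/CG/FIN.lean), with the coefficient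
`κ = log (1 + bδ)/δ` in place of `b(1 - bδ/2)` and with `0 < δ ≤ 1` in place of `bδ ≤ 1`. The only
change: for `E ∈ H₁` with `r_E < δm`: `log (1 + b r_E/m) ≥ κ r_E/m` by concavity (`r_E/(δm) ∈ [0,1]`), and
`κ ≥ log (1+b)`, again by concavity. -/
def FIN2_stmt : Prop := ∀ (N m b q J : ℕ) (ℓ Rr u w δ : ℝ) (H : List (ES N))
  (K : Finset (Fin N)), 1 ≤ m → 1 ≤ b → 1 ≤ J → Hist N m H → K.card = q →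
  (∀ e ∈ ed K, ∃ E ∈ H, e ∈ E) → 0 < u → u ≤ w → w < q → 0 ≤ ℓ → 0 ≤ Rr → 0 < δ → δ ≤ 1 →
  (∀ H₂ H₁, H = H₂ ++ H₁ → ∃ B ⊆ K, Closed J K H₁ B ∧ (H₁ = [] → B = ∅) ∧
    Real.log (gain b m (rest K B) H₁) + Real.log (gain b m (ed K) H₂) ≤
      ((q : ℝ) - B.card) * ℓ + Rr) →
  Real.log (1 + b) / m * ((q : ℝ) * ((q : ℝ) - 1) / 2) ≤ (q : ℝ) * ℓ + Rr ∧
  ((∃ γ : ℝ, u ≤ γ ∧ γ ≤ w ∧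
      Real.log (1 + b) / m * (γ * ((q : ℝ) - γ / 2 - 1 / 2)) ≤ γ * ℓ + Rr) ∨
   (∃ γ : ℝ, w < γ ∧ γ ≤ q ∧
      Real.log (1 + b) / m * (γ * ((q : ℝ) - γ)) +
        Real.log (1 + (b : ℝ) * δ) / δ / m * (γ * (γ - 1) / 2 -
          ((q : ℝ) ^ 2 * (J : ℝ) ^ 2 / (4 * δ * m) + m + (u * ℓ + Rr) * m / Real.log (1 + b))) ≤
        γ * ℓ + Rr))

/-- ALG2 (algebra, uniform in `b`). Let `λ = log (1+b) ≥ log 2`, `y = q/(mℓ)`,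
`κ_R = Rr/(mℓ²) ≤ 4x/k³ ≤ 4y/k³`, `x ≤ y ≤ x + 1/(mℓ)`, `κ = log (1 + bδ)/δ`,
`J = k³`, `u = mℓ/(k²λ)`, `w = mℓ/(kλ)`.
(A) `(λ/2)(y - 1/(mℓ)) ≤ 1 + κ_R/y ≤ 5`, so `Y = λy ≤ 11`.
(i) `g = γ/(mℓ)` in `[1/(k²λ), 1/(kλ)]`: `λ(y - g/2 - 1/(2mℓ)) ≤ 1 + κ_R/g ≤ 1 + 4Y/k`, so
`λy ≤ 1 + 46/k`.
(ii) `1/(kλ) < g ≤ y`: `λ(y-g) + κ(g/2 - 1/(2mℓ) - e/g) ≤ 1 + 4Y/k²` with
`e = y²k⁶/(4δm) + 1/(mℓ²) + (1/(k²λ) + κ_R)/λ`, so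
`κe/g ≤ (κ/λ) k (λ²e)`, `λ²e ≤ 121k⁶/(4δm) + λ²/(mℓ²) + 1/k² + 44/k³`.
If `b ≥ 3`, `δ = 1/20`: `κ/λ ≤ 20` and `κ ≥ 2λ` (for `b ≥ 3`: `log (1 + b/20) ≥ log (1+b)/10`, i.e.
`(1 + b/20)^10 ≥ 1 + b`: for `b = 3` it is `1.15^10 = 4.04... ≥ 4`, for `b ≥ 4` use the binomial
expansion up to the third term `1 + b/2 + 45b²/400 + 120b³/8000`), so `λy ≤ 1 + C/k`.
If `b ≤ 2`, `δ = 1/(bk)`: `b(1 - 1/(2k)) ≤ κ ≤ b`, `κ/λ ≤ 2`, so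
`λ(y-g) + (b/2)g ≤ 1 + C/k` (`g ≤ y ≤ 11/λ ≤ 16`) and
`y = (y-g) + g ≤ max (2/b) (1/λ) (λ(y-g) + (b/2)g)`. -/
def ALG2_stmt : Prop := ∃ C : ℝ, 0 ≤ C ∧ ∀ (b k m : ℕ) (q ℓ x Rr δ : ℝ), 1 ≤ b →
  1 ≤ k → k ^ 9 ≤ m → (k : ℝ) ^ 2 * (1 + (b : ℝ)) * 10 ≤ ℓ → 0 < x → x * m * ℓ ≤ q →
  q ≤ x * m * ℓ + 1 → 0 ≤ Rr → Rr ≤ 4 * x / (k : ℝ) ^ 3 * m * ℓ ^ 2 →
  (b ≤ 2 → δ = ((b : ℝ) * k)⁻¹) → (3 ≤ b → δ = 1 / 20) →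
  Real.log (1 + b) / m * (q * (q - 1) / 2) ≤ q * ℓ + Rr →
  ((∃ γ : ℝ, m * ℓ / ((k : ℝ) ^ 2 * Real.log (1 + b)) ≤ γ ∧
      γ ≤ m * ℓ / (k * Real.log (1 + b)) ∧
      Real.log (1 + b) / m * (γ * (q - γ / 2 - 1 / 2)) ≤ γ * ℓ + Rr) ∨
   (∃ γ : ℝ, m * ℓ / (k * Real.log (1 + b)) < γ ∧ γ ≤ q ∧
      Real.log (1 + b) / m * (γ * (q - γ)) +
        Real.log (1 + (b : ℝ) * δ) / δ / m * (γ * (γ - 1) / 2 -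
          (q ^ 2 * ((k ^ 3 : ℕ) : ℝ) ^ 2 / (4 * δ * m) + m +
            (m * ℓ / ((k : ℝ) ^ 2 * Real.log (1 + b)) * ℓ + Rr) * m / Real.log (1 + b))) ≤
        γ * ℓ + Rr)) →
  x ≤ max (2 / (b : ℝ)) (1 / Real.log (1 + b)) * (1 + C / k)

/-- MAI2, from COR, FIN2, ASY, ALG2, GAM (as MAI, Pool/Agent/helper67/CG/MAI.lean): if
`A N m b > xmℓ` with `x = M (1 + (C+1)/k)`, `M = max (2/b) (1/log (1+b))`, then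
`MakerWins` for `q = ⌈xmℓ⌉` by GAM, and COR, FIN2 with `p = J = k³`, `δ = 1/(bk)` if `b ≤ 2` and `1/20` if
`b ≥ 3`, `u = mℓ/(k²λ)`, `w = mℓ/(kλ) < q` (as `x > 1/(kλ)`),
ASY and ALG2 give `x ≤ M (1 + C/k)`. -/
def MAI2_stmt : Prop := ∃ C : ℝ, 0 ≤ C ∧ ∀ b k m : ℕ, 1 ≤ b → 1 ≤ k → k ^ 9 ≤ m →
  ∃ N₀ : ℕ, ∀ N ≥ N₀,
    (A N m b : ℝ) ≤ (1 + C / k) * max (2 / (b : ℝ)) (1 / Real.log (1 + b)) * m * Real.log N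

/-- RES2, from MAI2 with `k = ⌊m^(1/9)⌋`, `1/k ≤ 2 m^(-1/9)`. -/
def RES2_stmt : Prop := ∃ C : ℝ, ∀ b m : ℕ, 1 ≤ b → 1 ≤ m → ∃ N₀ : ℕ, ∀ N ≥ N₀,
    (A N m b : ℝ) ≤ (1 + C * (m : ℝ) ^ (-(1 / 9) : ℝ)) *
      max (2 / (b : ℝ)) (1 / Real.log (1 + b)) * m * Real.log N

end Pool.Agent.helper24.CG
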