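import Pool.Agent.helper48.CG.Spec

set_option autoImplicit false

namespace Pool.Agent.helper48.CG

open Equiv Finset Function Pool.Agent.helper48.PP

theorem BDI_mem {N : ℕ} (B : Finset (Fin N)) (x : ℕ) : x ∈ bd B ↔ x < N + 1 ∧
    (((∃ z ∈ B, (z : ℕ) = x) ∧ ¬ ∃ z ∈ B, (z : ℕ) + 1 = x) ∨
    ((¬ ∃ z ∈ B, (z : ℕ) = x) ∧ ∃ z ∈ B, (z : ℕ) + 1 = x)) := by
  unfold bd
  rw [Finset.mem_filter, Finset.mem_range]

theorem BDI_logic (R L p q a b : Prop) (hL : L) (h1 : R ↔ L ∧ ((p ∧ ¬ a) ∨ (¬ p ∧ a)))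
    (h2 : R ↔ L ∧ ((q ∧ ¬ b) ∨ (¬ q ∧ b))) (hab : a ↔ b) : p ↔ q := by
  have h3 := h1.symm.trans h2
  by_cases hp : p <;> by_cases hq : q <;> by_cases ha : a <;> by_cases hb : b <;>
    simp [hp, hq, ha, hb, hL] at h3 hab ⊢

theorem BDI_inj {N : ℕ} (B B' : Finset (Fin N)) (h : bd B = bd B') : B = B' := by
  have key : ∀ x : ℕ, (∃ z ∈ B, (z : ℕ) = x) ↔ (∃ z ∈ B', (z : ℕ) = x) := by
    intro x
    induction x with
    | zero =>
      have h0 := BDI_mem B 0
      have h0' := BDI_mem B' 0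
      have e1 : ¬ ∃ z ∈ B, (z : ℕ) + 1 = 0 := by rintro ⟨z, -, hz⟩; omega
      have e2 : ¬ ∃ z ∈ B', (z : ℕ) + 1 = 0 := by rintro ⟨z, -, hz⟩; omega
      rw [h] at h0
      have hN : 0 < N + 1 := by omega
      exact BDI_logic _ _ _ _ _ _ hN h0 h0' ⟨fun h => absurd h e1, fun h => absurd h e2⟩
    | succ x ih =>
      by_cases hx : x + 1 < N + 1
      · have h0 := BDI_mem B (x + 1)
        have h0' := BDI_mem B' (x + 1)
        have e1 : (∃ z ∈ B, (z : ℕ) + 1 = x + 1) ↔ ∃ z ∈ B, (z : ℕ) = x := by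
          constructor
          · rintro ⟨z, hz, hzx⟩; exact ⟨z, hz, by omega⟩
          · rintro ⟨z, hz, hzx⟩; exact ⟨z, hz, by omega⟩
        have e2 : (∃ z ∈ B', (z : ℕ) + 1 = x + 1) ↔ ∃ z ∈ B', (z : ℕ) = x := by
          constructor
          · rintro ⟨z, hz, hzx⟩; exact ⟨z, hz, by omega⟩
          · rintro ⟨z, hz, hzx⟩; exact ⟨z, hz, by omega⟩
        rw [h] at h0
        rw [e1] at h0
        rw [e2] at h0'
        exact BDI_logic _ _ _ _ _ _ hx h0 h0' ih
      · constructor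
        · rintro ⟨z, hz, hzx⟩; have := z.2; omega
        · rintro ⟨z, hz, hzx⟩; have := z.2; omega
  ext z
  constructor
  · intro hz
    obtain ⟨z', hz', hzz⟩ := (key z).mp ⟨z, hz, rfl⟩
    have : z' = z := Fin.ext hzz
    rwa [this] at hz'
  · intro hz
    obtain ⟨z', hz', hzz⟩ := (key z).mpr ⟨z, hz, rfl⟩
    have : z' = z := Fin.ext hzz
    rwa [this] at hz'

theorem BDI : BDI_stmt := by
  intro N m
  have h1 : (((Finset.univ : Finset (Finset (Fin N))).filter fun B => (bd B).card ≤ m).image bd) ⊆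
      (Finset.range (m + 1)).biUnion fun i => (Finset.range (N + 1)).powersetCard i := by
    intro S hS
    rw [Finset.mem_image] at hS
    obtain ⟨B, hB, rfl⟩ := hS
    rw [Finset.mem_filter] at hB
    rw [Finset.mem_biUnion]
    refine ⟨(bd B).card, Finset.mem_range.mpr (by omega), ?_⟩
    rw [Finset.mem_powersetCard]
    exact ⟨Finset.filter_subset _ _, rfl⟩
  have h2 : (((Finset.univ : Finset (Finset (Fin N))).filter fun B => (bd B).card ≤ m).image bd).card =
      ((Finset.univ : Finset (Finset (Fin N))).filter fun B => (bd B).card ≤ m).card :=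
    Finset.card_image_of_injective _ (fun B B' h => BDI_inj B B' h)
  rw [← h2]
  refine le_trans (Finset.card_le_card h1) (le_trans Finset.card_biUnion_le ?_)
  apply le_of_eq
  apply Finset.sum_congr rfl
  intro i _
  rw [Finset.card_powersetCard, Finset.card_range]

end Pool.Agent.helper48.CG
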