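import Mathlib

/-!
# The biased clique game (MP_ba8873_co): definitions and row statements

THEOREM. For every `b ≥ 1` there is `C` such that for every `m ≥ 1` and all `N ≥ N_0(b, m)`
`A(K_N; clique; m:b) ≤ (max (2/b) (1/log (1+b)) * m + C * m^(8/9)) * log N`.

Notation of the proofs: `t_1, t_2, ...` are Maker's turns (sets of at most `m` edges), newest first in
the history list `H`. An object is a set `S` of edges with a weight, multiplied by `1 + b|E ∩ S|/m` for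
every turn `E` of Maker, and killed by Breaker when he takes an edge of `S`.
-/

set_option autoImplicit false

namespace Pool.Agent.helper24.CG

open Finset

/-- Sets of edges; an edge is a two-element set of vertices. -/
abbrev ES (N : ℕ) := Finset (Finset (Fin N))

/-- All edges of `K_N`. -/
def edges (N : ℕ) : ES N := (univ : Finset (Fin N)).powersetCard 2

/-- The edges inside `K`. -/
def ed {N : ℕ} (K : Finset (Fin N)) : ES N := K.powersetCard 2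

/-- The edges inside `K` that are not inside `B`. -/
def rest {N : ℕ} (K B : Finset (Fin N)) : ES N := ed K \ ed B

/-- The vertices of the edges of `S`. -/
def verts {N : ℕ} (S : ES N) : Finset (Fin N) := S.biUnion id

/-- A legal move: `k` free elements, or all free elements if there are fewer than `k`. -/
def IsMove {α : Type} (k : ℕ) (free X : Finset α) : Prop :=
  X ⊆ free ∧ X.card = min k free.card

/-- `MakerWins N m b q M B`: it is Maker's turn, Maker owns `M` and Breaker owns `B`, and Maker can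
force to own all edges of a complete subgraph on `q` vertices. -/
inductive MakerWins (N m b q : ℕ) : ES N → ES N → Prop
  | clique (M B : ES N) (K : Finset (Fin N)) (hK : K.card = q) (h : ed K ⊆ M) :
      MakerWins N m b q M B
  | move (M B X : ES N) (hX : IsMove m (edges N \ (M ∪ B)) X)
      (h : ∀ Y, IsMove b (edges N \ (M ∪ X ∪ B)) Y → MakerWins N m b q (M ∪ X) (B ∪ Y)) :
      MakerWins N m b q M B

/-- The clique achievement number. -/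
noncomputable def A (N m b : ℕ) : ℕ := sSup {q | MakerWins N m b q ∅ ∅}

/-- The product of the factors `1 + b|E ∩ S|/m` over the turns `E` in `H`. -/
noncomputable def gain {α : Type} [DecidableEq α] (b m : ℕ) (S : Finset α)
    (H : List (Finset α)) : ℝ :=
  (H.map fun E => 1 + (b : ℝ) * ((E ∩ S).card : ℝ) / (m : ℝ)).prod

/-- `H` is a possible history of nonempty turns of Maker. -/
structure Hist (N m : ℕ) (H : List (ES N)) : Prop where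
  disj : H.Pairwise Disjoint
  mem : ∀ E ∈ H, E ⊆ edges N ∧ E.Nonempty ∧ E.card ≤ m

/-- Indices `(B, f)` of the sunflowers. -/
def suns (N q p : ℕ) : Finset (Finset (Fin N) × (Fin p → Finset (Fin N))) :=
  univ.filter fun x => x.1.card ≤ q ∧ ∀ i, (x.2 i).card = q - x.1.card ∧ Disjoint x.1 (x.2 i)

/-- The set of edges of a sunflower: those in one of the `B ∪ f i` but not in `B`. -/
def sunset {N p : ℕ} (B : Finset (Fin N)) (f : Fin p → Finset (Fin N)) : ES N :=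
  univ.biUnion fun i => rest (B ∪ f i) B

/-- The weights at time `0`. -/
noncomputable def Psi0 (N q p : ℕ) (S : ES N) : ℝ :=
  ∑ x ∈ suns N q p, (if sunset x.1 x.2 = S then
    (((q : ℝ) + 1) * (N : ℝ) ^ (x.1.card + p * (q - x.1.card)))⁻¹ else 0) +
  ∑ K ∈ (univ : Finset (Fin N)).powersetCard q, (if ed K = S then ((N : ℝ) ^ q)⁻¹ else 0)

/-- The sets `F` for which `B ∪ F` has `q` vertices, `F` avoids `X`, and the edges of `B ∪ F` outside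
`B` are not owned by Breaker (who owns `Bk`). -/
def fam (N q : ℕ) (Bk : ES N) (B X : Finset (Fin N)) : Finset (Finset (Fin N)) :=
  univ.filter fun F => F.card = q - B.card ∧ Disjoint B F ∧ Disjoint X F ∧
    Disjoint (rest (B ∪ F) B) Bk

/-- The weight of `F` over `B`. -/
noncomputable def nu {N : ℕ} (b m : ℕ) (H : List (ES N)) (B F : Finset (Fin N)) : ℝ :=
  gain b m (rest (B ∪ F) B) H

/-- `B` is closed for `K` and `H`: every turn has fewer than `J` vertices of edges of `K` outside `B`. -/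
def Closed {N : ℕ} (J : ℕ) (K : Finset (Fin N)) (H : List (ES N)) (B : Finset (Fin N)) : Prop :=
  ∀ E ∈ H, (verts (E ∩ ed K) \ B).card < J

/-- The denominators of the births. -/
noncomputable def DD (N q p : ℕ) (c L : ℝ) (β : ℕ) : ℝ :=
  2 * c * ((q : ℝ) + 1) * (N : ℝ) ^ (((q - β : ℕ) : ℝ) + (β : ℝ) / (p : ℝ)) * L * (N : ℝ) ^ 2

/-- The bound for the number of reachable sets. -/
def LL (N m q J n0 : ℕ) : ℕ := (1 + N ^ 2 * 4 ^ m) ^ (q / J + 1) * (1 + n0) ^ (q + 1)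

/-- The number of heavy vertices that are removed. -/
noncomputable def nn (N m b q p : ℕ) : ℕ :=
  ⌈((q : ℝ) * Real.log N + (q : ℝ) ^ 2 * Real.log (1 + b) + 1) *
    (2 * (p : ℝ) ^ 2 * m * (q : ℝ) ^ 2)⌉₊

/-- The error term. -/
noncomputable def RR (N m b q p J : ℕ) : ℝ :=
  Real.log (2 * b + 3) + Real.log (2 * (2 * b + 3) * ((q : ℝ) + 1)) +
    (q : ℝ) * Real.log N / p + Real.log (LL N m q J (nn N m b q p)) + 2 * Real.log N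

/-- The expression of the problem file, `c = (m+b)/m`, `c_0 = m/(m-b)`. -/
noncomputable def QQ (N m b : ℕ) : ℝ :=
  2 * Real.logb (((m : ℝ) + b) / m) (Real.exp 1 * N / (2 * Real.logb (((m : ℝ) + b) / m) N)) - 1 +
    2 * Real.log (((m : ℝ) + b) / m) / Real.log ((m : ℝ) / ((m : ℝ) - b))

/-! ## Row statements -/

/-- GRD (Breaker's greedy move). Proof: for `Y ⊆ free` let `Φ(Y)` be the sum of the `Ψ S` with `S`
disjoint from `Y` and `Φ(Y, e)` the part of it with `e ∈ S`. By induction on `j` there is `Y ⊆ free`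
with `min j |free|` elements such that `Φ(Y) + j Φ(Y, e) ≤ Φ(∅)` for all `e ∈ free \ Y` and
`Φ(Y) ≤ Φ(∅)`: add the
`e* ∈ free \ Y` with the largest `Φ(Y, e*)`: `Φ(Y ∪ e*) = Φ(Y) - Φ(Y, e*)` and
`Φ(Y ∪ e*, e) ≤ Φ(Y, e) ≤ Φ(Y, e*)`. For `j = b`: the sum in question is
`Φ(Y) + (b/m) Σ_(e ∈ X) Φ(Y, e)`, at most `Φ(Y) + b max_(e ∈ X) Φ(Y, e)`. -/
def GRD_stmt : Prop := ∀ (α : Type) [Fintype α] [DecidableEq α] (m b : ℕ) (free : Finset α)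
  (Ψ : Finset α → ℝ), 1 ≤ m → (∀ S, 0 ≤ Ψ S) →
  ∃ Y, IsMove b free Y ∧ ∀ X, X ⊆ free \ Y → X.card ≤ m →
    ∑ S : Finset α, (if Disjoint S Y then
      Ψ S * (1 + (b : ℝ) * ((X ∩ S).card : ℝ) / (m : ℝ)) else 0) ≤ ∑ S, Ψ S

/-- HLN: a history has at most `N^2` turns, `Σ |E ∩ S| ≤ |S|`, and if `S` is covered by the turns then
equality holds. -/
def HLN_stmt : Prop := ∀ (N m : ℕ) (H : List (ES N)), Hist N m H →
  H.length ≤ N ^ 2 ∧ H.Nodup ∧ (∀ S : ES N, (H.map fun E => (E ∩ S).card).sum ≤ S.card) ∧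
  (∀ S : ES N, (∀ e ∈ S, ∃ E ∈ H, e ∈ E) → (H.map fun E => (E ∩ S).card).sum = S.card)

/-- IND (main induction), from GRD and HLN. Invariant for a position `(M, B)` with Maker to move:
there are `H`, `Ψ` with `Hist N m H`, `M` is the union of the turns in `H`, `M` and `B` are disjoint
(and consist of edges), `Ψ ≥ 0`, `Ψ0 S * gain S H ≤ Ψ S` for all `S` disjoint from `B`; for all
`X ⊆ edges N \ (M ∪ B)` with at most `m` elements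
`Σ Ψ S (1 + b|X ∩ S|/m) ≤ 2(1+b) + |H|/N^2`; and for all `K` with `ed K` disjoint from `B` and all
`H = H₂ ++ H₁` there is `r ∈ R H₁ K` with `r * gain (ed K) H₂ ≤ Ψ (ed K)`. It is true for `∅, ∅` with
`H = []`, `Ψ = Ψ0`. If Maker plays `X = ∅` then (as `m ≥ 1`) there are no free edges, Breaker plays `∅`, and
the position is the same. If `X ≠ ∅` let `H' = X :: H`, `Ψ' S = Ψ S (1 + b|X ∩ S|/m) + β S` with the `β`
of the hypothesis on births (applied to `H'`, `B` and `Ψ S (1 + b|X ∩ S|/m)`), take `Y` from GRD for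
`Ψ'`, and `Ψ'' S = Ψ' S` if `S` is disjoint from `Y`, otherwise `0`. So, by induction on `MakerWins`, the
invariant holds in a position where Maker owns `ed K`, which is disjoint from `B`. -/
def IND_stmt : Prop := ∀ (N m b q : ℕ) (Ψ0 : ES N → ℝ)
  (R : List (ES N) → Finset (Fin N) → Set ℝ), 1 ≤ N → 1 ≤ m →
  (∀ S, 0 ≤ Ψ0 S) → ∑ S, Ψ0 S ≤ 2 →
  (∀ H K, ∀ r ∈ R H K, 0 ≤ r) →
  (∀ K : Finset (Fin N), K.card = q → ∃ r ∈ R [] K, r ≤ Ψ0 (ed K)) →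
  (∀ (H : List (ES N)) (Bk : ES N) (Ψ : ES N → ℝ), Hist N m H → H ≠ [] → (∀ S, 0 ≤ Ψ S) →
    ∑ S, Ψ S ≤ 2 * b + 3 → (∀ S, Disjoint S Bk → Ψ0 S * gain b m S H ≤ Ψ S) →
    ∃ β : ES N → ℝ, (∀ S, 0 ≤ β S) ∧ ∑ S, β S ≤ ((N : ℝ) ^ 2)⁻¹ ∧
      ∀ K : Finset (Fin N), K.card = q → Disjoint (ed K) Bk → ∃ r ∈ R H K, r ≤ β (ed K)) →
  MakerWins N m b q ∅ ∅ →
  ∃ (H : List (ES N)) (K : Finset (Fin N)), Hist N m H ∧ K.card = q ∧
    (∀ e ∈ ed K, ∃ E ∈ H, e ∈ E) ∧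
    ∀ H₂ H₁, H = H₂ ++ H₁ → ∃ r ∈ R H₁ K, r * gain b m (ed K) H₂ ≤ 2 * b + 3

/-- HVY (removal of heavy vertices). Proof: by induction on `n`: there is a good `X` with at most `n`
elements, or there is an `X` with at most `n` elements with
`Σ_(F ∈ 𝓖, F ∩ X = ∅) ν F ≤ (1-τ)^n W` (add a bad `v`). For `n = n0` in the
second case the sum is smaller than `1`, so it is empty, and `X` is good. -/
def HVY_stmt : Prop := ∀ (N n0 : ℕ) (𝓖 : Finset (Finset (Fin N))) (ν : Finset (Fin N) → ℝ)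
  (τ W : ℝ), 0 < τ → τ ≤ 1 → (∀ F ∈ 𝓖, 1 ≤ ν F) → ∑ F ∈ 𝓖, ν F ≤ W → (1 - τ) ^ n0 * W < 1 →
  ∃ X : Finset (Fin N), X.card ≤ n0 ∧
    ∀ v, ∑ F ∈ 𝓖.filter (fun F => Disjoint X F ∧ v ∈ F), ν F ≤
      τ * ∑ F ∈ 𝓖.filter (fun F => Disjoint X F), ν F

open Classical in
/-- TUP (most tuples have no bad pair). Proof: the sum of `Π ν (f i)` over all tuples is
`(Σ ν)^p`; for fixed `i < j` the sum over the tuples with `bad (f i) (f j)` is at most `θ (Σ ν)^p`;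
there are at most `p^2/2` pairs. (Or by induction on `p`, adding one coordinate.) -/
def TUP_stmt : Prop := ∀ (γ : Type) (F : Finset γ) (ν : γ → ℝ) (bad : γ → γ → Prop)
  (p : ℕ) (θ : ℝ), (∀ x ∈ F, 0 ≤ ν x) → 0 ≤ θ → (p : ℝ) ^ 2 * θ ≤ 1 →
  (∀ x ∈ F, ∑ y ∈ F.filter (fun y => bad x y), ν y ≤ θ * ∑ y ∈ F, ν y) →
  (∑ x ∈ F, ν x) ^ p ≤ 2 * ∑ f ∈ (Fintype.piFinset fun _ : Fin p => F).filter
    (fun f => ∀ i j, i < j → ¬ bad (f i) (f j)), ∏ i, ν (f i)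

open Classical in
/-- HIT, from HLN. Proof: at most `|rest (B ∪ F) B| ≤ q^2` turns `E` meet `rest (B ∪ F) B`; each has at
most `2m` vertices, and if `E` meets `rest (B ∪ G) B` then `G` contains a vertex of `E` (an edge in
`B ∪ G` not in `B` has a vertex in `G`). -/
def HIT_stmt : Prop := ∀ (N m q : ℕ) (H : List (ES N)) (B : Finset (Fin N))
  (𝓕 : Finset (Finset (Fin N))) (ν : Finset (Fin N) → ℝ) (τ : ℝ), Hist N m H → 0 ≤ τ →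
  (∀ F ∈ 𝓕, 0 ≤ ν F ∧ (B ∪ F).card ≤ q) →
  (∀ v, ∑ F ∈ 𝓕.filter (fun F => v ∈ F), ν F ≤ τ * ∑ F ∈ 𝓕, ν F) →
  ∀ F ∈ 𝓕, ∑ G ∈ 𝓕.filter (fun G => ∃ E ∈ H, ¬ Disjoint E (rest (B ∪ F) B) ∧
    ¬ Disjoint E (rest (B ∪ G) B)), ν G ≤ 2 * m * (q : ℝ) ^ 2 * τ * ∑ G ∈ 𝓕, ν G

/-- MUL: if every turn meets at most one `S i` then the gains multiply. Also simple facts. -/
def MUL_stmt : Prop := ∀ (α : Type) [DecidableEq α] (b m : ℕ),
  (∀ (p : ℕ) (H : List (Finset α)) (S : Fin p → Finset α),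
    (∀ E ∈ H, ∀ i j, i < j → Disjoint E (S i) ∨ Disjoint E (S j)) →
    ∏ i, gain b m (S i) H ≤ gain b m (univ.biUnion S) H) ∧
  (∀ (S : Finset α) (H : List (Finset α)), 1 ≤ gain b m S H) ∧
  (∀ (S : Finset α) (H₂ H₁ : List (Finset α)),
    gain b m S (H₂ ++ H₁) = gain b m S H₂ * gain b m S H₁) ∧
  (∀ (S T : Finset α) (H : List (Finset α)), S ⊆ T → gain b m S H ≤ gain b m T H)

/-- NUB, from HLN: `1 + bj/m ≤ (1+b)^j`, so `nu ≤ (1+b)^|rest|`, and `|ed (B ∪ F)| ≤ q^2`; the number of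
`F` is at most `N^q`. -/
def NUB_stmt : Prop := ∀ (N m b q : ℕ) (H : List (ES N)) (Bk : ES N) (B : Finset (Fin N)),
  1 ≤ N → 1 ≤ m → B.card ≤ q → Hist N m H →
  (∀ F, 1 ≤ nu b m H B F) ∧
  ∑ F ∈ fam N q Bk B ∅, nu b m H B F ≤ (N : ℝ) ^ q * (1 + (b : ℝ)) ^ (q ^ 2)

/-- INI: the number of sunflowers with `|B| = β` is at most `N^β (N^(q-β))^p`, so the first sum is at
most `1`; so is the second. -/
def INI_stmt : Prop := ∀ (N q p : ℕ), 1 ≤ N →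
  (∀ S, 0 ≤ Psi0 N q p S) ∧ ∑ S, Psi0 N q p S ≤ 2 ∧
  (∀ K : Finset (Fin N), K.card = q → ((N : ℝ) ^ q)⁻¹ ≤ Psi0 N q p (ed K))

/-- SUN (upper bound for the total weight over `B` after the removal of heavy vertices), from TUP,
HIT, MUL, INI. Proof: `𝓕 = fam N q Bk B X`, `ν = nu b m H B`. By HIT and TUP with `θ = 1/p^2`
and the relation `bad F G`: some turn meets `rest (B ∪ F) B` and `rest (B ∪ G) B`,
`(Σ ν)^p ≤ 2 Σ_f Π ν (f i)` over tuples `f` without bad pairs, and for these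
`Π ν (f i) ≤ gain (sunset B f) H` by MUL. The `sunset B f` are disjoint from `Bk` and
`(B, f) ∈ suns N q p`, so
`Σ_f gain (sunset B f) H * ((q+1) N^(β + pφ))⁻¹ ≤ Σ_(S disjoint from Bk) Psi0 S * gain S H
≤ Σ Ψ S ≤ c` with `β = |B|`, `φ = q - β`. Take `p`-th roots; `2c(q+1) ≥ 1`. -/
def SUN_stmt : Prop := ∀ (N m b q p : ℕ) (H : List (ES N)) (Bk : ES N) (Ψ : ES N → ℝ) (c : ℝ)
  (B X : Finset (Fin N)), 1 ≤ N → 1 ≤ m → 1 ≤ p → 1 ≤ q → 1 ≤ c → B.card ≤ q → Hist N m H →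
  (∀ S, 0 ≤ Ψ S) → ∑ S, Ψ S ≤ c →
  (∀ S, Disjoint S Bk → Psi0 N q p S * gain b m S H ≤ Ψ S) →
  (∀ v, ∑ F ∈ (fam N q Bk B X).filter (fun F => v ∈ F), nu b m H B F ≤
    (2 * (p : ℝ) ^ 2 * m * (q : ℝ) ^ 2)⁻¹ * ∑ F ∈ fam N q Bk B X, nu b m H B F) →
  ∑ F ∈ fam N q Bk B X, nu b m H B F ≤
    2 * c * ((q : ℝ) + 1) * (N : ℝ) ^ (((q - B.card : ℕ) : ℝ) + (B.card : ℝ) / (p : ℝ))

/-- RCH (reachable closed sets), from HLN (for `|H| ≤ N^2`). Proof: for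
`s1 B = {B} ∪ {B ∪ C | C ⊆ verts E, E ∈ H}` (at most `1 + N^2 4^m` sets) let `R_0 = {∅}`,
`R_(i+1) = ⋃_(B ∈ R_i) s1 B`. For `K` and `i` there is `B ∈ R_i`, `B ⊆ K`, which is closed or has
`|B| ≥ iJ` (otherwise add `verts (E ∩ ed K) \ B` for a turn `E` with at least `J` such vertices); for
`i = q/J + 1` it is closed. Then the same with `s2 B = {B} ∪ {B ∪ {v} | v ∈ X B}` (at most `1 + n0`
sets), starting from `R_(q/J+1)`: for `i` there is a closed `B ⊆ K` with `X B` disjoint from `K \ B` or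
`|B| ≥ i`; take `i = q + 1`. (Supersets of closed sets are closed.) -/
def RCH_stmt : Prop := ∀ (N m q J n0 : ℕ) (H : List (ES N))
  (X : Finset (Fin N) → Finset (Fin N)), 1 ≤ J → Hist N m H → (∀ B, (X B).card ≤ n0) →
  ∃ 𝓑 : Finset (Finset (Fin N)), 𝓑.card ≤ LL N m q J n0 ∧
    ∀ K : Finset (Fin N), K.card = q →
      ∃ B ∈ 𝓑, B ⊆ K ∧ Closed J K H B ∧ Disjoint (X B) (K \ B)

/-- BIR (births), from HVY, NUB, SUN, RCH. Proof: for `|B| ≤ q` let `X B` be the set of HVY for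
`𝓖 = fam N q Bk B ∅`, `τ = (2 p^2 m q^2)⁻¹`, `W = N^q (1+b)^(q^2)` (NUB) and `n0`; `X B = ∅` otherwise. Let
`𝓑` be the set of RCH and
`β S = Σ_(B ∈ 𝓑, |B| ≤ q) Σ_(F ∈ fam N q Bk B (X B), ed (B ∪ F) = S) nu b m H B F / DD |B|`. By SUN the sum of
`β` is at most `|𝓑| / (L N^2) ≤ 1/N^2`. For `K` take `B` of RCH and `F = K \ B`. -/
def BIR_stmt : Prop := ∀ (N m b q p J n0 : ℕ) (c : ℝ) (H : List (ES N)) (Bk : ES N)
  (Ψ : ES N → ℝ), 1 ≤ N → 1 ≤ m → 1 ≤ q → 1 ≤ p → 1 ≤ J → 1 ≤ c →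
  (1 - (2 * (p : ℝ) ^ 2 * m * (q : ℝ) ^ 2)⁻¹) ^ n0 * ((N : ℝ) ^ q * (1 + (b : ℝ)) ^ (q ^ 2)) < 1 →
  Hist N m H → (∀ S, 0 ≤ Ψ S) → ∑ S, Ψ S ≤ c →
  (∀ S, Disjoint S Bk → Psi0 N q p S * gain b m S H ≤ Ψ S) →
  ∃ β : ES N → ℝ, (∀ S, 0 ≤ β S) ∧ ∑ S, β S ≤ ((N : ℝ) ^ 2)⁻¹ ∧
    ∀ K : Finset (Fin N), K.card = q → Disjoint (ed K) Bk →
      ∃ B ⊆ K, Closed J K H B ∧
        gain b m (rest K B) H / DD N q p c (LL N m q J n0) B.card ≤ β (ed K)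

/-- N0B: the number `nn` satisfies the hypothesis of BIR: `(1-τ)^n ≤ exp (-τ n)`. -/
def N0B_stmt : Prop := ∀ (N m b q p : ℕ), 1 ≤ N → 1 ≤ m → 1 ≤ q → 1 ≤ p →
  (1 - (2 * (p : ℝ) ^ 2 * m * (q : ℝ) ^ 2)⁻¹) ^ (nn N m b q p) *
    ((N : ℝ) ^ q * (1 + (b : ℝ)) ^ (q ^ 2)) < 1

/-- COR, from IND, BIR, INI, N0B, MUL: IND with
`R H K = {r | ∃ B ⊆ K, Closed J K H B, (H = [] → B = ∅), r = gain (rest K B) H / DD |B|}`, `c = 2b+3`,
`L = LL N m q J (nn ...)`, and logarithms: `gain (rest K B) H₁ * gain (ed K) H₂ ≤ c * DD |B|`. -/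
def COR_stmt : Prop := ∀ (N m b q p J : ℕ), 1 ≤ N → 1 ≤ m → 1 ≤ q → 1 ≤ p → 1 ≤ J →
  MakerWins N m b q ∅ ∅ →
  ∃ (H : List (ES N)) (K : Finset (Fin N)), Hist N m H ∧ K.card = q ∧
    (∀ e ∈ ed K, ∃ E ∈ H, e ∈ E) ∧
    ∀ H₂ H₁, H = H₂ ++ H₁ → ∃ B ⊆ K, Closed J K H₁ B ∧ (H₁ = [] → B = ∅) ∧
      Real.log (gain b m (rest K B) H₁) + Real.log (gain b m (ed K) H₂) ≤
        ((q : ℝ) - B.card) * Real.log N + RR N m b q p J

/-- FIN (final inequality), from HLN and MUL. Write `λ = log (1+b)`. For `0 ≤ j ≤ m`: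
`log (1 + bj/m) ≥ λ j/m` (concavity). Taking `H₁ = []` gives the first conclusion
(`Σ |E ∩ ed K| = q(q-1)/2`).
If some splitting has `γ = q - |B|` in `[u, w]`: its left side is at least `(λ/m) |rest K B|`, and
`|rest K B| = γ(q - γ/2 - 1/2)`. This is the first alternative. Otherwise `γ > w` for `H₁ = []`, and either
`γ > w` for `H₁ = H`, `H₂ = []`, or there are `H = H₂' ++ (E₀ :: H₁)` with `γ > w` for `H₁`
(with `H₂ = H₂' ++ [E₀]`) and `γ' < u` for `E₀ :: H₁`. In the latter case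
`(λ/m) Σ_(E ∈ H₂') |E ∩ ed K| ≤ uℓ + Rr`. Let `B` be the set for `H₁`, `G = K \ B`; `GG_E = |E ∩ ed G|`,
`r_E = |E ∩ rest K B|`, `GB_E = r_E - GG_E` (edges with one end in `G`).
For `E ∈ H₁`: `log (1 + b r_E/m) ≥ (λ GB_E + b(1 - bδ/2) GG_E [r_E < δm])/m` as
`log (1+x) ≥ x - x²/2`; for `E ∈ H₂`: `log (1 + b|E ∩ ed K|/m) ≥ λ GB_E/m`. The sum of all `GB_E` is
`γ(q-γ)`, the sum of all `GG_E` is `γ(γ-1)/2`; the number of `E ∈ H₁` with `r_E ≥ δm` is at most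
`q²/(2δm)`, and for these `GG_E ≤ J²/2` (closed); the `E` in `H₂` have
`GG_E` with sum at most `m + (uℓ+Rr)m/λ`. This is the second alternative. -/
def FIN_stmt : Prop := ∀ (N m b q J : ℕ) (ℓ Rr u w δ : ℝ) (H : List (ES N))
  (K : Finset (Fin N)), 1 ≤ m → 1 ≤ b → 1 ≤ J → Hist N m H → K.card = q →
  (∀ e ∈ ed K, ∃ E ∈ H, e ∈ E) → 0 < u → u ≤ w → w < q → 0 ≤ ℓ → 0 ≤ Rr → 0 < δ →
  (b : ℝ) * δ ≤ 1 →
  (∀ H₂ H₁, H = H₂ ++ H₁ → ∃ B ⊆ K, Closed J K H₁ B ∧ (H₁ = [] → B = ∅) ∧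
    Real.log (gain b m (rest K B) H₁) + Real.log (gain b m (ed K) H₂) ≤
      ((q : ℝ) - B.card) * ℓ + Rr) →
  Real.log (1 + b) / m * ((q : ℝ) * ((q : ℝ) - 1) / 2) ≤ (q : ℝ) * ℓ + Rr ∧
  ((∃ γ : ℝ, u ≤ γ ∧ γ ≤ w ∧
      Real.log (1 + b) / m * (γ * ((q : ℝ) - γ / 2 - 1 / 2)) ≤ γ * ℓ + Rr) ∨
   (∃ γ : ℝ, w < γ ∧ γ ≤ q ∧
      Real.log (1 + b) / m * (γ * ((q : ℝ) - γ)) +
        (b : ℝ) * (1 - (b : ℝ) * δ / 2) / m * (γ * (γ - 1) / 2 -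
          ((q : ℝ) ^ 2 * (J : ℝ) ^ 2 / (4 * δ * m) + m + (u * ℓ + Rr) * m / Real.log (1 + b))) ≤
        γ * ℓ + Rr))

/-- ASY (asymptotics, `p = J = k^3`). Proof: with `ℓ = log N`: `q ~ xmℓ`, `qℓ/p ~ (xm/k³)ℓ²`,
`log (1 + N²4^m) ≤ 2ℓ + m log 4 + log 2`, so
`(q/J + 1) log (1 + N²4^m) ~ (2xm/k³)ℓ²` and `log (1 + nn) = O(log ℓ)`, so
`(q+1) log (1 + nn) = O(ℓ log ℓ)`; so `RR ~ (3xm/k³)ℓ²`. -/
def ASY_stmt : Prop := ∀ (b k m : ℕ) (x : ℝ), 1 ≤ b → 1 ≤ k → 1 ≤ m → 0 < x → ∃ N₀ : ℕ, ∀ N ≥ N₀,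
  RR N m b ⌈x * m * Real.log N⌉₊ (k ^ 3) (k ^ 3) ≤
    4 * x / (k : ℝ) ^ 3 * m * (Real.log N) ^ 2

/-- ALG (algebra). Let `λ = log (1+b)`, `M = max (2/b) (1/λ)`, `y = q/(mℓ)`, `κ = Rr/(mℓ²) ≤ 4x/k³`,
`x ≤ y ≤ x + 1/k²`. The first
hypothesis gives `(λ/2)(y - 1/(mℓ)) ≤ 1 + κ/y ≤ 5`, so `y ≤ Y = 10/λ + 1`. First alternative, with
`g = γ/(mℓ)` in `[1/k², 1/k]`: `λ(y - g/2 - 1/(2mℓ)) ≤ 1 + κ/g ≤ 1 + 4Y/k`. Second alternative, with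
`1/k < g ≤ y`: after division by `mℓ²g`:
`λ(y-g) + b(1 - 1/(2k))(g/2 - 1/(2mℓ) - e/g) ≤ 1 + κ/g` with
`e = y²k⁶bk/(4m) + 1/(mℓ²) + (1/k² + κ)/λ ≤ y²b/(4k²) + 1/k² + (1/k² + 4Y/k³)/λ` (as `m ≥ k⁹`,
`mℓ ≥ k²`, `ℓ ≥ 1`), so `λ(y-g) + bg/2 ≤ 1 + C₂/k`, `y = (y-g) + g ≤ M(λ(y-g) + bg/2)`. -/
def ALG_stmt : Prop := ∀ b : ℕ, 1 ≤ b → ∃ C : ℝ, 0 ≤ C ∧ ∀ (k m : ℕ) (q ℓ x Rr : ℝ),
  1 ≤ k → k ^ 9 ≤ m → 1 ≤ ℓ → (k : ℝ) ^ 2 ≤ m * ℓ → 0 < x → x * m * ℓ ≤ q → q ≤ x * m * ℓ + 1 →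
  0 ≤ Rr → Rr ≤ 4 * x / (k : ℝ) ^ 3 * m * ℓ ^ 2 →
  Real.log (1 + b) / m * (q * (q - 1) / 2) ≤ q * ℓ + Rr →
  ((∃ γ : ℝ, m * ℓ / (k : ℝ) ^ 2 ≤ γ ∧ γ ≤ m * ℓ / k ∧
      Real.log (1 + b) / m * (γ * (q - γ / 2 - 1 / 2)) ≤ γ * ℓ + Rr) ∨
   (∃ γ : ℝ, m * ℓ / k < γ ∧ γ ≤ q ∧
      Real.log (1 + b) / m * (γ * (q - γ)) +
        (b : ℝ) * (1 - (b : ℝ) * ((b : ℝ) * k)⁻¹ / 2) / m * (γ * (γ - 1) / 2 -
          (q ^ 2 * ((k ^ 3 : ℕ) : ℝ) ^ 2 / (4 * ((b : ℝ) * k)⁻¹ * m) + m +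
            (m * ℓ / (k : ℝ) ^ 2 * ℓ + Rr) * m / Real.log (1 + b))) ≤
        γ * ℓ + Rr)) →
  x ≤ max (2 / (b : ℝ)) (1 / Real.log (1 + b)) + C / k

/-- GAM: simple facts on the game. -/
def GAM_stmt : Prop := ∀ (N m b : ℕ),
  (∀ q M B, MakerWins N m b q M B → q ≤ N) ∧
  (∀ q q' M B, q' ≤ q → MakerWins N m b q M B → MakerWins N m b q' M B) ∧
  IsGreatest {q | MakerWins N m b q ∅ ∅} (A N m b)

/-- MAI (form with `k`), from COR, FIN, ASY, ALG, GAM: if `A N m b > xmℓ` with `x = M + (C+1)/k`, then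
`MakerWins` for `q = ⌈xmℓ⌉` by GAM, and COR, FIN with `p = J = k³`, `δ = 1/(bk)`, `u = mℓ/k²`,
`w = mℓ/k < q`, ASY and ALG give `x ≤ M + C/k`. -/
def MAI_stmt : Prop := ∀ b : ℕ, 1 ≤ b → ∃ C : ℝ, 0 ≤ C ∧ ∀ k m : ℕ, 1 ≤ k → k ^ 9 ≤ m →
  ∃ N₀ : ℕ, ∀ N ≥ N₀,
    (A N m b : ℝ) ≤ (max (2 / (b : ℝ)) (1 / Real.log (1 + b)) + C / k) * m * Real.log N

/-- RES, from MAI with `k = ⌊m^(1/9)⌋`, `1/k ≤ 2 m^(-1/9)`. -/
def RES_stmt : Prop := ∀ b : ℕ, 1 ≤ b → ∃ C : ℝ, ∀ m : ℕ, 1 ≤ m → ∃ N₀ : ℕ, ∀ N ≥ N₀,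
    (A N m b : ℝ) ≤ (max (2 / (b : ℝ)) (1 / Real.log (1 + b)) * m + C * (m : ℝ) ^ (8 / 9 : ℝ)) *
      Real.log N

/-- QCP: `log c ≤ b/m`, so `QQ ≥ (2m/b) log N (1 - o(1))` (`log log N = o(log N)`; the other terms do
not depend on `N`). -/
def QCP_stmt : Prop := ∀ (b m : ℕ) (ε : ℝ), 1 ≤ b → b < m → 0 < ε → ∃ N₀ : ℕ, ∀ N ≥ N₀,
  2 * (m : ℝ) / b * Real.log N ≤ (1 + ε) * QQ N m b

/-- RQQ, from RES and QCP with `ε = m^(-1/9)`: for `b = 1, 2` the maximum is `2/b`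
(`log 2 ≥ 1/2`, `log 3 ≥ 1`). -/
def RQQ_stmt : Prop := ∀ b : ℕ, 1 ≤ b → b ≤ 2 → ∃ C : ℝ, ∀ m : ℕ, b < m → ∃ N₀ : ℕ, ∀ N ≥ N₀,
  (A N m b : ℝ) ≤ (1 + C * (m : ℝ) ^ (-(1 / 9) : ℝ)) * QQ N m b

end Pool.Agent.helper24.CG
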